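import Pool.Agent.W863.AllK

/-!
# Many consecutive levels of high complexity: replacing every line by parallel lines
-/

set_option autoImplicit false

namespace Pool.Agent.X65.ML

open KLev KLev.Levels Finset Filter Topology

/-- recorded events of an arrangement of distinct lines are vertices of the level -/
theorem card_le_complexity {ι R : Type} [Fintype ι] [Fintype R] {k P : ℕ} (S : Ev ι R k P)
    (hginj : Function.Injective fun i => (S.s i, S.t i)) (Γ : Finset (ℝ × ℝ))
    (hΓm : ∀ p, p ∈ Γ ↔ ∃ i, (S.s i, S.t i) = p) :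
    Fintype.card R ≤ complexity Γ k := by
  classical
  set g : ι → ℝ × ℝ := fun i => (S.s i, S.t i) with hg
  have hΓ : Γ = Finset.univ.image g := by
    ext p
    rw [hΓm, mem_image]
    simp [hg]
  have hmem : ∀ i, g i ∈ Γ := fun i => by simp [hΓ]
  have hlev : ∀ p : ℝ × ℝ, level Γ p =
      ((Finset.univ : Finset ι).filter (fun i => S.s i * p.1 + S.t i < p.2)).card := by
    intro p
    unfold level
    rw [hΓ, Finset.filter_image, Finset.card_image_of_injective _ hginj]
    rfl
  have hcnt : ∀ r, ((Finset.univ : Finset ι).filter (fun i => S.s i * S.X r + S.t i <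
      S.s (S.a r) * S.X r + S.t (S.a r))).card = k := by
    intro r; rw [Finset.card_filter]; convert S.hcard r
  have hcont : ∀ i, Continuous (fun x : ℝ => S.s i * x + S.t i) := by
    intro i; fun_prop
  -- near the event the other lines keep their side
  have hnear : ∀ r, ∀ᶠ x in 𝓝 (S.X r), ∀ c, c ≠ S.a r → c ≠ S.b r →
      (S.s c * x + S.t c < S.s (S.a r) * x + S.t (S.a r) ↔
        S.s c * S.X r + S.t c < S.s (S.a r) * S.X r + S.t (S.a r)) ∧
      (S.s c * x + S.t c < S.s (S.b r) * x + S.t (S.b r) ↔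
        S.s c * S.X r + S.t c < S.s (S.a r) * S.X r + S.t (S.a r)) := by
    intro r
    rw [eventually_all]; intro c
    by_cases hca : c = S.a r
    · exact Filter.Eventually.of_forall (fun _ h => absurd hca h)
    by_cases hcb : c = S.b r
    · exact Filter.Eventually.of_forall (fun _ _ h => absurd hcb h)
    have hne := S.hne r c hca hcb
    have hne2 : S.s c * S.X r + S.t c ≠ S.s (S.b r) * S.X r + S.t (S.b r) := by
      rw [← S.tie r]; exact hne
    rcases lt_or_gt_of_ne hne with h | h
    · have h' : S.s c * S.X r + S.t c < S.s (S.b r) * S.X r + S.t (S.b r) := by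
        rw [← S.tie r]; exact h
      filter_upwards [(hcont c).continuousAt.eventually_lt (hcont (S.a r)).continuousAt h,
        (hcont c).continuousAt.eventually_lt (hcont (S.b r)).continuousAt h'] with x h1 h2 _ _
      exact ⟨⟨fun _ => h, fun _ => h1⟩, ⟨fun _ => h, fun _ => h2⟩⟩
    · have h' : S.s (S.b r) * S.X r + S.t (S.b r) < S.s c * S.X r + S.t c := by
        rw [← S.tie r]; exact h
      filter_upwards [(hcont (S.a r)).continuousAt.eventually_lt (hcont c).continuousAt h,
        (hcont (S.b r)).continuousAt.eventually_lt (hcont c).continuousAt h'] with x h1 h2 _ _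
      exact ⟨⟨fun h3 => absurd h3 (not_lt.mpr h1.le), fun h3 => absurd h3 (not_lt.mpr h.le)⟩,
        ⟨fun h3 => absurd h3 (not_lt.mpr h2.le), fun h3 => absurd h3 (not_lt.mpr h.le)⟩⟩
  have hver : ∀ r, IsVertex Γ k (S.X r, S.s (S.a r) * S.X r + S.t (S.a r)) := by
    intro r
    obtain ⟨δ, hδ, hball⟩ := Metric.eventually_nhds_iff.mp (hnear r)
    refine ⟨g (S.a r), hmem _, g (S.b r), hmem _, ?_, rfl, ?_, δ, hδ, ?_, ?_⟩
    · intro h; exact S.ab_ne r (hginj h)
    · exact (S.tie r).symm
    · intro x hx1 hx2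
      have hx1' : S.X r - δ < x := hx1
      have hx2' : x < S.X r := hx2
      have hx : dist x (S.X r) < δ := by rw [Real.dist_eq, abs_lt]; constructor <;> linarith
      have hs := S.hs r
      have htie := S.tie r
      apply subset_closure
      refine ⟨⟨g (S.a r), hmem _, rfl⟩, ?_⟩
      rw [hlev]
      refine Eq.trans (congrArg Finset.card ?_) (hcnt r)
      ext c
      simp only [Finset.mem_filter, Finset.mem_univ, true_and]
      show S.s c * x + S.t c < S.s (S.a r) * x + S.t (S.a r) ↔ _
      by_cases hca : c = S.a r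
      · subst hca; simp
      by_cases hcb : c = S.b r
      · rw [hcb]
        constructor
        · intro h; exfalso; nlinarith
        · intro h; exfalso; linarith
      · exact (hball hx c hca hcb).1
    · intro x hx1 hx2
      have hx1' : S.X r < x := hx1
      have hx2' : x < S.X r + δ := hx2
      have hx : dist x (S.X r) < δ := by rw [Real.dist_eq, abs_lt]; constructor <;> linarith
      have hs := S.hs r
      have htie := S.tie r
      apply subset_closure
      refine ⟨⟨g (S.b r), hmem _, rfl⟩, ?_⟩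
      rw [hlev]
      refine Eq.trans (congrArg Finset.card ?_) (hcnt r)
      ext c
      simp only [Finset.mem_filter, Finset.mem_univ, true_and]
      show S.s c * x + S.t c < S.s (S.b r) * x + S.t (S.b r) ↔ _
      by_cases hca : c = S.a r
      · rw [hca]
        constructor
        · intro h; exfalso; nlinarith
        · intro h; exfalso; linarith
      by_cases hcb : c = S.b r
      · rw [hcb]
        constructor
        · intro h; exfalso; linarith
        · intro h; exfalso; linarith
      · exact (hball hx c hca hcb).2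
  set G : R → ℝ × ℝ := fun r => (S.X r, S.s (S.a r) * S.X r + S.t (S.a r)) with hG
  have hGinj : Function.Injective G := by
    intro r r' h
    exact S.hX (congrArg Prod.fst h)
  calc Fintype.card R = (Set.range G).ncard := by
        rw [← Set.image_univ, Set.ncard_image_of_injective _ hGinj, Set.ncard_univ,
          Nat.card_eq_fintype_card]
    _ ≤ complexity Γ k := by
        unfold complexity
        apply Set.ncard_le_ncard _ (vertices_finite Γ k)
        rintro _ ⟨r, rfl⟩
        exact hver r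

/-- replacing every line by `j` parallel lines -/
theorem blow {A R : Type} [Fintype A] [Fintype R] {k P : ℕ} (S : Ev A R k P)
    (hinj : Function.Injective S.s) (j : ℕ) (hj : 0 < j) :
    ∃ Γ : Finset (ℝ × ℝ), Γ.card = Fintype.card A * j ∧
      ∀ i < j, Fintype.card R * ((j + 1) / 2) ≤ complexity Γ (k * j + (j / 2 + i)) := by
  classical
  obtain ⟨D, hD⟩ : ∃ D : R → Fin j → Fin j → ℝ, D = fun (r : R)
      (u v : Fin j) => (((v : ℕ) : ℝ) - ((u : ℕ) : ℝ)) / (S.s (S.a r) - S.s (S.b r)) := ⟨_, rfl⟩
  have hden : ∀ r, S.s (S.a r) - S.s (S.b r) ≠ 0 := fun r => by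
    have := S.hs r
    linarith
  have hDe : ∀ r u v, (S.s (S.a r) - S.s (S.b r)) * D r u v = ((v : ℕ) : ℝ) - ((u : ℕ) : ℝ) := by
    intro r u v
    rw [hD]
    exact mul_div_cancel₀ _ (hden r)
  have c1 : ∀ᶠ ε in 𝓝[>] (0:ℝ), ∀ (r : R) (u v w : Fin j) (c : A), c ≠ S.a r → c ≠ S.b r →
      (S.s c * S.X r + S.t c - (S.s (S.a r) * S.X r + S.t (S.a r))) +
        ε * ((S.s c - S.s (S.a r)) * D r u v + ((w : ℕ) : ℝ) - ((u : ℕ) : ℝ)) ≠ 0 ∧
      ((S.s c * S.X r + S.t c - (S.s (S.a r) * S.X r + S.t (S.a r))) +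
        ε * ((S.s c - S.s (S.a r)) * D r u v + ((w : ℕ) : ℝ) - ((u : ℕ) : ℝ)) < 0 ↔
        S.s c * S.X r + S.t c - (S.s (S.a r) * S.X r + S.t (S.a r)) < 0) := by
    simp only [eventually_all]
    intro r u v w c h1 h2
    exact ev_sign _ (sub_ne_zero.2 (S.hne r c h1 h2))
  have c2 : ∀ᶠ ε in 𝓝[>] (0:ℝ), ∀ (r r' : R) (u v u' v' : Fin j), r ≠ r' →
      (S.X r - S.X r') + ε * (D r u v - D r' u' v') ≠ 0 := by
    simp only [eventually_all]
    intro r r' u v u' v' h
    exact (ev_sign _ (sub_ne_zero.2 (S.hX.ne h))).mono fun ε h => h.1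
  obtain ⟨ε, ⟨h1, h2⟩, hε⟩ := ((c1.and c2).and self_mem_nhdsWithin).exists
  have hε : 0 < ε := hε
  set g : A × Fin j → ℝ × ℝ := fun p => (S.s p.1, S.t p.1 + ε * ((p.2 : ℕ) : ℝ)) with hg
  have hginj : Function.Injective g := by
    rintro ⟨c, w⟩ ⟨c', w'⟩ h
    simp only [hg, Prod.mk.injEq] at h
    have e1 : c = c' := hinj h.1
    subst e1
    have e2 : ((w : ℕ) : ℝ) = ((w' : ℕ) : ℝ) := mul_left_cancel₀ hε.ne' (by linarith [h.2])
    have e3 : w = w' := Fin.ext (by exact_mod_cast e2)
    rw [e3]
  refine ⟨univ.image g, ?_, ?_⟩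
  · rw [card_image_of_injective _ hginj, card_univ, Fintype.card_prod, Fintype.card_fin]
  intro i hi
  obtain ⟨q, hq⟩ : ∃ q, q = (j + 1) / 2 := ⟨_, rfl⟩
  obtain ⟨w, hw⟩ : ∃ w, w = j / 2 + i := ⟨_, rfl⟩
  rw [← hq, ← hw]
  have hw1 : q ≤ w + 1 := by omega
  have hw2 : w + q ≤ 2 * j - 1 := by omega
  have hU : ∀ l : Fin q, (w + 1 - j) + l < j := fun l => by have := l.2; omega
  have hV : ∀ l : Fin q, w - ((w + 1 - j) + l) < j := fun l => by have := l.2; omega
  obtain ⟨U, hUd⟩ : ∃ U : Fin q → Fin j, U = fun l => ⟨(w + 1 - j) + l, hU l⟩ := ⟨_, rfl⟩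
  obtain ⟨V, hVd⟩ : ∃ V : Fin q → Fin j, V = fun l => ⟨w - ((w + 1 - j) + l), hV l⟩ := ⟨_, rfl⟩
  have hUV : ∀ l, (U l : ℕ) + V l = w := fun l => by
    have := l.2
    rw [hUd, hVd]
    simp only
    omega
  have hUinj : ∀ l l', (U l : ℕ) = U l' → l = l' := by
    intro l l' h
    rw [hUd] at h
    simp only at h
    exact Fin.ext (by omega)
  obtain ⟨Y, hY⟩ : ∃ Y : R × Fin q → ℝ, Y = fun p => S.X p.1 + ε * D p.1 (U p.2) (V p.2) :=
    ⟨_, rfl⟩
  have htie : ∀ p : R × Fin q, S.s (S.a p.1) * Y p + (S.t (S.a p.1) + ε * ((U p.2 : ℕ) : ℝ)) =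
      S.s (S.b p.1) * Y p + (S.t (S.b p.1) + ε * ((V p.2 : ℕ) : ℝ)) := by
    intro p
    have e1 := S.tie p.1
    have e2 := hDe p.1 (U p.2) (V p.2)
    rw [hY]
    simp only
    linear_combination e1 + ε * e2
  have hdiff : ∀ (p : R × Fin q) (c : A) (x : Fin j),
      (S.s c * Y p + (S.t c + ε * ((x : ℕ) : ℝ))) -
        (S.s (S.a p.1) * Y p + (S.t (S.a p.1) + ε * ((U p.2 : ℕ) : ℝ))) =
      (S.s c * S.X p.1 + S.t c - (S.s (S.a p.1) * S.X p.1 + S.t (S.a p.1))) +
        ε * ((S.s c - S.s (S.a p.1)) * D p.1 (U p.2) (V p.2) + ((x : ℕ) : ℝ) -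
          ((U p.2 : ℕ) : ℝ)) := by
    intro p c x
    rw [hY]
    simp only
    ring
  let T : Ev (A × Fin j) (R × Fin q) (k * j + w) (Fintype.card (R × Fin q)) :=
    { s := fun p => S.s p.1
      t := fun p => S.t p.1 + ε * ((p.2 : ℕ) : ℝ)
      X := Y
      a := fun p => (S.a p.1, U p.2)
      b := fun p => (S.b p.1, V p.2)
      tie := htie
      hs := fun p => S.hs p.1
      hne := by
        rintro p ⟨c, x⟩ hca hcb
        simp only
        by_cases e1 : c = S.a p.1
        · subst e1
          have hx : x ≠ U p.2 := fun h => hca (by rw [h])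
          intro h
          have h3 : ((x : ℕ) : ℝ) = ((U p.2 : ℕ) : ℝ) := mul_left_cancel₀ hε.ne' (by linarith)
          exact hx (Fin.ext (by exact_mod_cast h3))
        by_cases e2 : c = S.b p.1
        · subst e2
          have hx : x ≠ V p.2 := fun h => hcb (by rw [h])
          intro h
          rw [htie p] at h
          have h3 : ((x : ℕ) : ℝ) = ((V p.2 : ℕ) : ℝ) := mul_left_cancel₀ hε.ne' (by linarith)
          exact hx (Fin.ext (by exact_mod_cast h3))
        · intro h
          apply (h1 p.1 (U p.2) (V p.2) x c e1 e2).1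
          rw [← hdiff, h, sub_self]
      hcard := by
        intro p
        simp only
        have hab : S.a p.1 ≠ S.b p.1 := S.ab_ne p.1
        have hlt : ∀ z : Fin j, ∑ x : Fin j, (if ((x : ℕ) : ℝ) < ((z : ℕ) : ℝ) then 1 else 0) =
            (z : ℕ) := by
          intro z
          rw [← Finset.card_filter]
          have : (univ.filter fun x : Fin j => ((x : ℕ) : ℝ) < ((z : ℕ) : ℝ)) = Iio z := by
            ext x
            rw [mem_filter, mem_Iio, Nat.cast_lt, Fin.lt_def]
            exact ⟨fun h => h.2, fun h => ⟨mem_univ _, h⟩⟩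
          rw [this, Fin.card_Iio]
        have key : ∀ c : A, ∑ x : Fin j, (if S.s c * Y p + (S.t c + ε * ((x : ℕ) : ℝ)) <
            S.s (S.a p.1) * Y p + (S.t (S.a p.1) + ε * ((U p.2 : ℕ) : ℝ)) then 1 else 0) =
            j * (if S.s c * S.X p.1 + S.t c < S.s (S.a p.1) * S.X p.1 + S.t (S.a p.1)
              then 1 else 0) + (if c = S.a p.1 then (U p.2 : ℕ) else 0) +
              (if c = S.b p.1 then (V p.2 : ℕ) else 0) := by
          intro c
          by_cases e1 : c = S.a p.1
          · subst e1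
            rw [if_neg (lt_irrefl _), if_pos rfl, if_neg hab, mul_zero, zero_add, add_zero]
            refine Eq.trans ?_ (hlt (U p.2))
            apply sum_congr rfl
            intro x _
            congr 1
            rw [eq_iff_iff]
            constructor
            · intro h
              have h' : ε * ((x : ℕ) : ℝ) < ε * ((U p.2 : ℕ) : ℝ) := by linarith
              exact lt_of_mul_lt_mul_left h' hε.le
            · intro h
              have := mul_lt_mul_of_pos_left h hε
              linarith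
          by_cases e2 : c = S.b p.1
          · subst e2
            rw [if_neg (by rw [S.tie p.1]; exact lt_irrefl _), if_neg e1, if_pos rfl, mul_zero,
              zero_add, zero_add]
            refine Eq.trans ?_ (hlt (V p.2))
            apply sum_congr rfl
            intro x _
            congr 1
            rw [eq_iff_iff, htie p]
            constructor
            · intro h
              have h' : ε * ((x : ℕ) : ℝ) < ε * ((V p.2 : ℕ) : ℝ) := by linarith
              exact lt_of_mul_lt_mul_left h' hε.le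
            · intro h
              have := mul_lt_mul_of_pos_left h hε
              linarith
          · rw [if_neg e1, if_neg e2, add_zero, add_zero]
            have h4 : ∀ x : Fin j, (S.s c * Y p + (S.t c + ε * ((x : ℕ) : ℝ)) <
                S.s (S.a p.1) * Y p + (S.t (S.a p.1) + ε * ((U p.2 : ℕ) : ℝ))) ↔
                (S.s c * S.X p.1 + S.t c < S.s (S.a p.1) * S.X p.1 + S.t (S.a p.1)) := by
              intro x
              rw [← sub_neg, hdiff, (h1 p.1 (U p.2) (V p.2) x c e1 e2).2, sub_neg]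
            by_cases h5 : S.s c * S.X p.1 + S.t c < S.s (S.a p.1) * S.X p.1 + S.t (S.a p.1)
            · rw [if_pos h5, mul_one]
              have : ∀ x : Fin j, (if S.s c * Y p + (S.t c + ε * ((x : ℕ) : ℝ)) <
                S.s (S.a p.1) * Y p + (S.t (S.a p.1) + ε * ((U p.2 : ℕ) : ℝ)) then 1 else 0) = 1 :=
                fun x => if_pos ((h4 x).2 h5)
              rw [sum_congr rfl fun x _ => this x]
              simp
            · rw [if_neg h5, mul_zero]
              exact sum_eq_zero fun x _ => if_neg fun h => h5 ((h4 x).1 h)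
        rw [Fintype.sum_prod_type, sum_congr rfl fun c _ => key c, sum_add_distrib,
          sum_add_distrib, ← mul_sum, S.hcard p.1, Finset.sum_ite_eq' Finset.univ (S.a p.1),
          Finset.sum_ite_eq' Finset.univ (S.b p.1), if_pos (mem_univ _), if_pos (mem_univ _)]
        have := hUV p.2
        rw [mul_comm j k]
        omega
      hX := by
        rintro ⟨r, l⟩ ⟨r', l'⟩ h
        by_cases hr : r = r'
        · subst hr
          rw [hY] at h
          simp only at h
          have h3 : D r (U l) (V l) = D r (U l') (V l') := mul_left_cancel₀ hε.ne' (by linarith)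
          have h4 := hDe r (U l) (V l)
          rw [h3, hDe r (U l') (V l')] at h4
          have h5 : ((V l' : ℕ) : ℝ) + ((U l : ℕ) : ℝ) = ((V l : ℕ) : ℝ) + ((U l' : ℕ) : ℝ) := by
            linarith
          have h6 : (V l' : ℕ) + (U l : ℕ) = (V l : ℕ) + (U l' : ℕ) := by exact_mod_cast h5
          have h7 := hUV l
          have h8 := hUV l'
          have h9 : l = l' := hUinj l l' (by omega)
          rw [h9]
        · exfalso
          apply h2 r r' (U l) (V l) (U l') (V l') hr
          rw [hY] at h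
          simp only at h
          linarith
      slot := Fintype.equivFin _
      hslot := fun r r' _ h => (Fintype.equivFin _).injective h }
  have h3 := card_le_complexity T hginj (univ.image g) (by
    intro p
    rw [mem_image]
    constructor
    · rintro ⟨a, _, h⟩
      exact ⟨a, h⟩
    · rintro ⟨a, h⟩
      exact ⟨a, mem_univ _, h⟩)
  rw [Fintype.card_prod, Fintype.card_fin] at h3
  exact h3

/-- **Many consecutive levels of high complexity.** -/
theorem main : ∃ m₀ : ℕ, ∀ m j : ℕ, m₀ ≤ m → 1 ≤ j → ∃ Γ : Finset (ℝ × ℝ), Γ.card = m * j ∧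
    ∃ L : ℕ, ∀ i < j, (m : ℝ) * j / 2 *
      (m : ℝ) ^ Real.exp (-3 * √(Real.log (Real.log (m : ℝ)))) ≤ complexity Γ (L + i) := by
  obtain ⟨a, ha⟩ := (NearPoly.finalP 1).exists_forall_of_atTop
  refine ⟨2 * a + 10, fun m j hm hj => ?_⟩
  obtain ⟨N, E, P, hH, hN, hE⟩ := ha (m / 2 - 1) (by omega)
  have hmm : (m : ℝ) ≤ 8 * ((m / 2 - 1 : ℕ) : ℝ) := by
    have : m ≤ 8 * (m / 2 - 1) := by omega
    exact_mod_cast this
  have hmm2 : ((m / 2 - 1 : ℕ) : ℝ) ≤ m := by
    have : m / 2 - 1 ≤ m := by omega
    exact_mod_cast this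
  have h3 := hE m hmm2 hmm
  rw [one_mul] at h3
  obtain ⟨A, R, _, _, P', S, i₁, c₁, d₁⟩ :=
    Pool.Agent.W863.AllK.single hH (K := m / 2) (by omega) (m - (N + m / 2 + 1))
  rw [Nat.add_sub_cancel' (by omega)] at c₁
  obtain ⟨Γ, hΓ, hc⟩ := blow S i₁ j hj
  rw [c₁] at hΓ
  rw [d₁] at hc
  refine ⟨Γ, hΓ, m / 2 * j + j / 2, fun i hi => ?_⟩
  have h4 := hc i hi
  rw [← add_assoc] at h4
  have h5 : ((E * ((j + 1) / 2) : ℕ) : ℝ) ≤ complexity Γ (m / 2 * j + j / 2 + i) := by
    exact_mod_cast h4
  refine le_trans ?_ h5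
  have hm0 : (0 : ℝ) < m := by
    have : 0 < m := by omega
    exact_mod_cast this
  rw [Real.rpow_add hm0, Real.rpow_one] at h3
  have h6 : (j : ℝ) / 2 ≤ (((j + 1) / 2 : ℕ) : ℝ) := by
    have : j ≤ 2 * ((j + 1) / 2) := by omega
    have h7 : (j : ℝ) ≤ 2 * (((j + 1) / 2 : ℕ) : ℝ) := by exact_mod_cast this
    linarith
  push_cast
  calc (m : ℝ) * j / 2 * (m : ℝ) ^ Real.exp (-3 * √(Real.log (Real.log (m : ℝ)))) =
        ((m : ℝ) * (m : ℝ) ^ Real.exp (-3 * √(Real.log (Real.log (m : ℝ))))) * (j / 2) := by ring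
    _ ≤ (E : ℝ) * (((j + 1) / 2 : ℕ) : ℝ) := by
        apply mul_le_mul h3 h6 (by positivity) (Nat.cast_nonneg _)

end Pool.Agent.X65.ML
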